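import Pool.Agent.H88.BalPoset

/-! All the pair counts of a poset by one run through the down-sets. -/

namespace Pool.Agent.H88.BalC

open Finset Pool.Agent.H2.Bal

variable {n : ℕ}

theorem Ext_congr {α : Type} [DecidableEq α] (R R' : α → α → Prop) (I : Finset α)
    (h : ∀ a ∈ I, ∀ b ∈ I, a ≠ b → (R a b ↔ R' a b)) : Ext R I = Ext R' I := by
  ext l
  simp only [H2.Bal.Ext, Set.mem_ofPred_eq]
  constructor
  · rintro ⟨h1, h2, h3⟩
    refine ⟨h1, h2, ?_⟩
    refine List.Pairwise.imp_of_mem ?_ (List.Pairwise.and h1 h3)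
    rintro a b ha hb ⟨hab, hR⟩ hR'
    exact hR ((h b (h2 ▸ List.mem_toFinset.2 hb) a (h2 ▸ List.mem_toFinset.2 ha)
      (Ne.symm hab)).2 hR')
  · rintro ⟨h1, h2, h3⟩
    refine ⟨h1, h2, ?_⟩
    refine List.Pairwise.imp_of_mem ?_ (List.Pairwise.and h1 h3)
    rintro a b ha hb ⟨hab, hR⟩ hR'
    exact hR ((h b (h2 ▸ List.mem_toFinset.2 hb) a (h2 ▸ List.mem_toFinset.2 ha)
      (Ne.symm hab)).1 hR')

/-- the relation with one more comparison -/
def addR (R : Fin n → Fin n → Prop) (x y : Fin n) : Fin n → Fin n → Prop :=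
  fun a b => R a b ∨ (a = x ∧ b = y)

open Classical in
/-- the number of the extensions of `R` on `I` with `x` before `y` -/
noncomputable def N (R : Fin n → Fin n → Prop) (x y : Fin n) (I : Finset (Fin n)) : ℕ :=
  if x ∈ I ∧ y ∈ I then (if x = y then (Ext R I).ncard else (Ext (addR R x y) I).ncard) else 0

open Classical in
/-- the minimal elements -/
noncomputable def mins (R : Fin n → Fin n → Prop) (I : Finset (Fin n)) : Finset (Fin n) :=
  I.filter (fun x => ∀ b ∈ I.erase x, ¬ R b x)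

open Classical in
theorem U_rec (R : Fin n → Fin n → Prop) (I : Finset (Fin n)) (hI : I.Nonempty) :
    (Ext R I).ncard = ∑ z ∈ mins R I, (Ext R (I.erase z)).ncard := by
  rw [Ext_rec R I hI]
  apply Finset.sum_congr _ (fun _ _ => rfl)
  ext z
  simp only [mins, Finset.mem_filter]

open Classical in
theorem N_rec (R : Fin n → Fin n → Prop) (I : Finset (Fin n)) (hI : I.Nonempty) (x y : Fin n) :
    N R x y I = ∑ z ∈ mins R I, (N R x y (I.erase z) +
      if x = z ∧ y ∈ I then (Ext R (I.erase z)).ncard else 0) := by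
  by_cases hx : x ∈ I
  swap
  · rw [N, if_neg (fun h => hx h.1)]
    symm
    apply Finset.sum_eq_zero
    intro z hz
    have hzI : z ∈ I := (Finset.mem_filter.1 hz).1
    have hz' : ¬ (x = z ∧ y ∈ I) := by
      rintro ⟨rfl, -⟩
      exact hx hzI
    rw [N, if_neg (fun h => hx (Finset.mem_of_mem_erase h.1)), if_neg hz', add_zero]
  by_cases hy : y ∈ I
  swap
  · rw [N, if_neg (fun h => hy h.2)]
    symm
    apply Finset.sum_eq_zero
    intro z hz
    rw [N, if_neg (fun h => hy (Finset.mem_of_mem_erase h.2)), if_neg (fun h => hy h.2), add_zero]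
  by_cases hxy : x = y
  · subst hxy
    rw [N, if_pos ⟨hx, hx⟩, if_pos rfl, U_rec R I hI]
    apply Finset.sum_congr rfl
    intro z hz
    by_cases hxz : x = z
    · subst hxz
      rw [N, if_neg (fun h => (Finset.notMem_erase x I) h.1), if_pos ⟨rfl, hx⟩, zero_add]
    · rw [N, if_pos ⟨Finset.mem_erase.2 ⟨hxz, hx⟩, Finset.mem_erase.2 ⟨hxz, hx⟩⟩, if_pos rfl,
        if_neg (fun h => hxz h.1), add_zero]
  · rw [N, if_pos ⟨hx, hy⟩, if_neg hxy, U_rec (addR R x y) I hI]
    have hsub : mins (addR R x y) I = (mins R I).erase y := by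
      ext z
      simp only [mins, Finset.mem_filter, Finset.mem_erase, addR]
      constructor
      · rintro ⟨hz, h⟩
        refine ⟨?_, hz, fun b hb hR => h b hb (Or.inl hR)⟩
        rintro rfl
        exact h x ⟨hxy, hx⟩ (Or.inr ⟨rfl, rfl⟩)
      · rintro ⟨hzy, hz, h⟩
        refine ⟨hz, fun b hb hR => ?_⟩
        rcases hR with hR | ⟨-, hR⟩
        · exact h b hb hR
        · exact hzy hR
    rw [hsub]
    have hrest : ∀ z ∈ (mins R I).erase y, (Ext (addR R x y) (I.erase z)).ncard =
        (N R x y (I.erase z) + if x = z ∧ y ∈ I then (Ext R (I.erase z)).ncard else 0) := by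
      intro z hz
      rw [Finset.mem_erase] at hz
      by_cases hxz : x = z
      · subst hxz
        rw [N, if_neg (fun h => (Finset.notMem_erase x I) h.1), if_pos ⟨rfl, hy⟩, zero_add]
        congr 1
        apply Ext_congr
        intro a ha b hb _
        unfold addR
        constructor
        · rintro (h | ⟨h, -⟩)
          · exact h
          · exact absurd (h ▸ ha) (Finset.notMem_erase x I)
        · exact Or.inl
      · rw [N, if_pos ⟨Finset.mem_erase.2 ⟨hxz, hx⟩, Finset.mem_erase.2 ⟨Ne.symm hz.1, hy⟩⟩,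
          if_neg hxy, if_neg (fun h => hxz h.1), add_zero]
    rw [Finset.sum_congr rfl hrest]
    by_cases hym : y ∈ mins R I
    · rw [← Finset.add_sum_erase _ _ hym]
      have : N R x y (I.erase y) + (if x = y ∧ y ∈ I then (Ext R (I.erase y)).ncard else 0) = 0 := by
        rw [N, if_neg (fun h => (Finset.notMem_erase y I) h.2), if_neg (fun h => hxy h.1)]
      rw [this, zero_add]
    · rw [Finset.erase_eq_of_notMem hym]

/-- the packed sum of the pair counts -/
noncomputable def T (R : Fin n → Fin n → Prop) (w : Fin n → Fin n → ℕ) (I : Finset (Fin n)) : ℕ :=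
  ∑ x, ∑ y, w x y * N R x y I

theorem T_rec (R : Fin n → Fin n → Prop) (w : Fin n → Fin n → ℕ) (I : Finset (Fin n))
    (hI : I.Nonempty) :
    T R w I = ∑ z ∈ mins R I, (T R w (I.erase z) + (Ext R (I.erase z)).ncard * ∑ y ∈ I, w z y) := by
  classical
  unfold T
  have h1 : ∀ x y : Fin n, w x y * N R x y I = ∑ z ∈ mins R I, (w x y * N R x y (I.erase z) +
      if x = z ∧ y ∈ I then w x y * (Ext R (I.erase z)).ncard else 0) := by
    intro x y
    rw [N_rec R I hI x y, Finset.mul_sum]
    apply Finset.sum_congr rfl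
    intro z _
    rw [mul_add]
    split_ifs <;> simp
  simp only [h1]
  rw [Finset.sum_congr rfl (fun x _ => Finset.sum_comm), Finset.sum_comm]
  apply Finset.sum_congr rfl
  intro z _
  simp only [Finset.sum_add_distrib]
  congr 1
  rw [Finset.sum_eq_single z]
  · rw [Finset.mul_sum, ← Finset.sum_filter]
    simp only [true_and, Finset.filter_mem_eq_inter, Finset.univ_inter]
    apply Finset.sum_congr rfl
    intro y _
    ring
  · intro x _ hxz
    apply Finset.sum_eq_zero
    intro y _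
    rw [if_neg (fun h => hxz h.1)]
  · intro h; exact absurd (Finset.mem_univ z) h

theorem T_empty (R : Fin n → Fin n → Prop) (w : Fin n → Fin n → ℕ) : T R w ∅ = 0 := by
  unfold T
  apply Finset.sum_eq_zero
  intro x _
  apply Finset.sum_eq_zero
  intro y _
  rw [N, if_neg (fun h => absurd h.1 (Finset.notMem_empty x)), mul_zero]


/-- add an entry to the list -/
def ins3 (m c d : ℕ) : List (ℕ × ℕ × ℕ) → List (ℕ × ℕ × ℕ)
  | [] => [(m, c, d)]
  | (k, c', d') :: L => if k = m then (k, c' + c, d' + d) :: L else (k, c', d') :: ins3 m c d L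

/-- distribute one entry -/
def dist3 (m c d s : ℕ) : List (ℕ × ℕ × ℕ) → List (ℕ × ℕ × ℕ) → List (ℕ × ℕ × ℕ)
  | [], acc => acc
  | (b, p, e) :: P, acc =>
    if m &&& b ≠ 0 ∧ m &&& p = 0 then dist3 m c d s P (ins3 (m ^^^ b) c (d + c * (e * s)) acc)
    else dist3 m c d s P acc

/-- the mask with larger gaps -/
def spr (m : ℕ) : List (ℕ × ℕ) → ℕ
  | [] => 0
  | (b, e) :: Q => if m &&& b ≠ 0 then e + spr m Q else spr m Q

/-- one step for all entries -/
def step3 (P : List (ℕ × ℕ × ℕ)) (Q : List (ℕ × ℕ)) :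
    List (ℕ × ℕ × ℕ) → List (ℕ × ℕ × ℕ) → List (ℕ × ℕ × ℕ)
  | [], acc => acc
  | (m, c, d) :: L, acc => step3 P Q L (dist3 m c d (spr m Q) P acc)

/-- the value of an association list -/
def val3 (U F : ℕ → ℕ) (L : List (ℕ × ℕ × ℕ)) : ℕ :=
  (L.map (fun e => e.2.1 * F e.1 + e.2.2 * U e.1)).sum

theorem val3_ins3 (U F : ℕ → ℕ) (m c d : ℕ) (L : List (ℕ × ℕ × ℕ)) :
    val3 U F (ins3 m c d L) = c * F m + d * U m + val3 U F L := by
  induction L with
  | nil => simp [ins3, val3]
  | cons e L ih =>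
    obtain ⟨k, c', d'⟩ := e
    simp only [ins3]
    split_ifs with h
    · subst h; simp [val3]; ring
    · simp only [val3, List.map_cons, List.sum_cons] at ih ⊢
      rw [ih]; ring

/-- the sum over the minimal elements -/
def msum3 (U F : ℕ → ℕ) (m c d s : ℕ) (P : List (ℕ × ℕ × ℕ)) : ℕ :=
  (P.map (fun e => if m &&& e.1 ≠ 0 ∧ m &&& e.2.1 = 0 then
    c * F (m ^^^ e.1) + (d + c * (e.2.2 * s)) * U (m ^^^ e.1) else 0)).sum

theorem val3_dist3 (U F : ℕ → ℕ) (m c d s : ℕ) (P acc : List (ℕ × ℕ × ℕ)) :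
    val3 U F (dist3 m c d s P acc) = msum3 U F m c d s P + val3 U F acc := by
  induction P generalizing acc with
  | nil => simp [dist3, msum3]
  | cons e P ih =>
    obtain ⟨b, p, e⟩ := e
    simp only [dist3]
    split_ifs with h
    · rw [ih, val3_ins3]; simp only [msum3, List.map_cons, List.sum_cons, if_pos h]; ring
    · rw [ih]; simp only [msum3, List.map_cons, List.sum_cons, if_neg h]; ring

theorem val3_step3 (U F : ℕ → ℕ) (P : List (ℕ × ℕ × ℕ)) (Q : List (ℕ × ℕ))
    (L acc : List (ℕ × ℕ × ℕ)) :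
    val3 U F (step3 P Q L acc) =
      (L.map (fun e => msum3 U F e.1 e.2.1 e.2.2 (spr e.1 Q) P)).sum + val3 U F acc := by
  induction L generalizing acc with
  | nil => simp [step3]
  | cons e L ih =>
    obtain ⟨m, c, d⟩ := e
    simp only [step3, List.map_cons, List.sum_cons]
    rw [ih, val3_dist3]; ring

/-- the weights -/
def wt (n K : ℕ) (x y : Fin n) : ℕ := 2 ^ (K * (n * x.val)) * 2 ^ (K * y.val)

/-- the table of the poset -/
def tabP (n K : ℕ) (pm : List ℕ) : List (ℕ × ℕ × ℕ) :=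
  (List.finRange n).map (fun x => (2 ^ x.val, pr pm x.val, 2 ^ (K * (n * x.val))))

/-- the table for the larger gaps -/
def tabQ (n K : ℕ) : List (ℕ × ℕ) :=
  (List.finRange n).map (fun x => (2 ^ x.val, 2 ^ (K * x.val)))

theorem spr_aux (m : ℕ) (Q : List (ℕ × ℕ)) :
    spr m Q = (Q.map (fun e => if m &&& e.1 ≠ 0 then e.2 else 0)).sum := by
  induction Q with
  | nil => rfl
  | cons e Q ih =>
    obtain ⟨b, e⟩ := e
    simp only [spr, List.map_cons, List.sum_cons]
    split_ifs <;> simp [ih]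

theorem spr_eq (K m : ℕ) : spr m (tabQ n K) = ∑ y ∈ els n m, 2 ^ (K * y.val) := by
  rw [spr_aux, tabQ, List.map_map, ← List.ofFn_eq_map, List.sum_ofFn, els, Finset.sum_filter]
  apply Finset.sum_congr rfl
  intro y _
  simp only [Function.comp_apply, and_two_pow_ne]

variable {pm : List ℕ}

theorem els_erase (m : ℕ) (x : Fin n) (hx : m.testBit x.val = true) :
    (els n m).erase x = els n (m ^^^ 2 ^ x.val) := by
  ext y
  rw [Finset.mem_erase, mem_els, mem_els, Nat.testBit_xor, Nat.testBit_two_pow]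
  by_cases hxy : x.val = y.val
  · have : x = y := Fin.ext hxy
    subst this
    simp [hx]
  · have : y ≠ x := fun h => hxy (by rw [h])
    simp [this, hxy]

theorem mem_mins (hv : valid n pm = true) (m : ℕ) (x : Fin n) :
    x ∈ mins (le n pm) (els n m) ↔ (m &&& 2 ^ x.val ≠ 0 ∧ m &&& pr pm x.val = 0) := by
  unfold valid at hv
  rw [Bool.and_eq_true, decide_eq_true_eq, decide_eq_true_eq] at hv
  unfold mins
  simp only [Finset.mem_filter]
  rw [mem_els, and_two_pow_ne, and_eq_zero]
  constructor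
  · rintro ⟨h1, h2⟩
    refine ⟨h1, fun i hi => ?_⟩
    by_contra hc
    have hc' : (pr pm x.val).testBit i = true := by simpa using hc
    have hi' := testBit_lt (hv.1 x).1 hc'
    refine h2 ⟨i, hi'⟩ ?_ (Or.inr hc')
    rw [Finset.mem_erase, mem_els]
    refine ⟨?_, hi⟩
    rintro rfl
    rw [(hv.1 _).2] at hc'; exact absurd hc' (by decide)
  · rintro ⟨h1, h2⟩
    refine ⟨h1, fun b hb hR => ?_⟩
    rw [Finset.mem_erase, mem_els] at hb
    rcases hR with hR | hR
    · exact hb.1 hR
    · rw [h2 b.val hb.2] at hR; exact absurd hR (by decide)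

theorem msum3_eq (hv : valid n pm = true) (K m c d : ℕ) (hm : (els n m).Nonempty) :
    msum3 (fun m => (H2.Bal.Ext (le n pm) (els n m)).ncard)
      (fun m => T (le n pm) (wt n K) (els n m)) m c d (spr m (tabQ n K)) (tabP n K pm) =
    c * T (le n pm) (wt n K) (els n m) + d * (H2.Bal.Ext (le n pm) (els n m)).ncard := by
  rw [T_rec _ _ _ hm, U_rec _ _ hm, msum3, tabP, List.map_map, ← List.ofFn_eq_map, List.sum_ofFn,
    Finset.mul_sum, Finset.mul_sum, ← Finset.sum_add_distrib]
  have hs : mins (le n pm) (els n m) = Finset.univ.filter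
      (fun x : Fin n => (m &&& 2 ^ x.val ≠ 0 ∧ m &&& pr pm x.val = 0)) := by
    ext x
    rw [mem_mins hv, Finset.mem_filter]
    simp only [Finset.mem_univ, true_and]
  rw [hs, Finset.sum_filter]
  apply Finset.sum_congr rfl
  intro x _
  simp only [Function.comp_apply]
  split_ifs with h
  · rw [els_erase m x ((and_two_pow_ne m x.val).1 h.1), spr_eq]
    have : ∑ y ∈ els n m, wt n K x y = 2 ^ (K * (n * x.val)) * ∑ y ∈ els n m, 2 ^ (K * y.val) := by
      rw [Finset.mul_sum]; rfl
    rw [this]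
    ring
  · rfl

/-- all the masks of the list are nonzero below `2 ^ n` -/
def good3 (n : ℕ) : List (ℕ × ℕ × ℕ) → Bool
  | [] => true
  | (m, _, _) :: L => decide (m % 2 ^ n ≠ 0) && good3 n L

theorem good3_spec (L : List (ℕ × ℕ × ℕ)) (h : good3 n L = true) :
    ∀ e ∈ L, (els n e.1).Nonempty := by
  induction L with
  | nil => simp
  | cons e L ih =>
    obtain ⟨m, c, d⟩ := e
    simp only [good3, Bool.and_eq_true, decide_eq_true_eq] at h
    intro e he
    rcases List.mem_cons.1 he with rfl | he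
    · obtain ⟨i, hi⟩ := Nat.exists_testBit_of_ne_zero h.1
      rw [Nat.testBit_mod_two_pow] at hi
      simp only [Bool.and_eq_true, decide_eq_true_eq] at hi
      exact ⟨⟨i, hi.1⟩, by rw [mem_els]; exact hi.2⟩
    · exact ih h.2 e he

/-- run the table -/
def run3 (n : ℕ) (P : List (ℕ × ℕ × ℕ)) (Q : List (ℕ × ℕ)) :
    ℕ → List (ℕ × ℕ × ℕ) → Option (List (ℕ × ℕ × ℕ))
  | 0, L => some L
  | k + 1, L => if good3 n L then run3 n P Q k (step3 P Q L []) else none

theorem run3_spec (hv : valid n pm = true) (K k : ℕ) (L L' : List (ℕ × ℕ × ℕ))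
    (h : run3 n (tabP n K pm) (tabQ n K) k L = some L') :
    val3 (fun m => (H2.Bal.Ext (le n pm) (els n m)).ncard)
      (fun m => T (le n pm) (wt n K) (els n m)) L' =
    val3 (fun m => (H2.Bal.Ext (le n pm) (els n m)).ncard)
      (fun m => T (le n pm) (wt n K) (els n m)) L := by
  induction k generalizing L with
  | zero => simp only [run3, Option.some.injEq] at h; rw [h]
  | succ k ih =>
    simp only [run3] at h
    split_ifs at h with hg
    rw [ih _ h, val3_step3]
    simp only [val3, List.map_nil, List.sum_nil, add_zero]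
    congr 1
    apply List.map_congr_left
    intro e he
    exact msum3_eq hv K e.1 e.2.1 e.2.2 (good3_spec L hg e he)

/-- the result of the run is `D` -/
def isRes (n K : ℕ) (pm : List ℕ) (D : ℕ) : Bool :=
  match run3 n (tabP n K pm) (tabQ n K) n [(2 ^ n - 1, 1, 0)] with
  | some [(0, _, d)] => decide (d = D)
  | _ => false

theorem isRes_spec (hv : valid n pm = true) (K D : ℕ) (h : isRes n K pm D = true) :
    D = T (le n pm) (wt n K) univ := by
  unfold isRes at h
  split at h
  · rename_i c d heq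
    rw [decide_eq_true_eq] at h
    subst h
    have := run3_spec hv K n _ _ heq
    simp only [val3, List.map_cons, List.map_nil, List.sum_cons, List.sum_nil, add_zero, els_full,
      els_zero, H2.Bal.Ext_empty, Set.ncard_singleton, one_mul, mul_one, T_empty, mul_zero,
      zero_add, zero_mul] at this
    exact this
  · exact absurd h (by decide)

/-- the digits of a sum of small numbers times powers -/
theorem digit_of_sum (f : ℕ → ℕ) (B M : ℕ) (hB : 0 < B) (hf : ∀ i, f i < B) (j : ℕ) (hj : j < M) :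
    ((∑ i ∈ range M, f i * B ^ i) / B ^ j) % B = f j := by
  have hlow : ∀ k, ∑ i ∈ range k, f i * B ^ i < B ^ k := by
    intro k
    induction k with
    | zero => simp
    | succ k ih =>
      rw [Finset.sum_range_succ, pow_succ]
      have := hf k
      nlinarith [Nat.mul_le_mul_right (B ^ k) (Nat.succ_le_of_lt this)]
  have hsplit : ∑ i ∈ range M, f i * B ^ i =
      (∑ i ∈ range j, f i * B ^ i) + B ^ j * (f j + B * ∑ i ∈ range (M - j - 1),
        f (j + 1 + i) * B ^ i) := by
    obtain ⟨r, rfl⟩ := Nat.exists_eq_add_of_lt hj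
    have e : j + r + 1 - j - 1 = r := by omega
    rw [e, show j + r + 1 = (j + 1) + r by ring, Finset.sum_range_add, Finset.sum_range_succ,
      mul_add, Finset.mul_sum, Finset.mul_sum, add_assoc]
    congr 1
    rw [mul_comm (f j)]
    congr 1
    apply Finset.sum_congr rfl
    intro i _
    ring
  rw [hsplit, Nat.add_mul_div_left _ _ (pow_pos hB j), Nat.div_eq_of_lt (hlow j), zero_add,
    Nat.add_mul_mod_self_left, Nat.mod_eq_of_lt (hf j)]


/-- the digit number `i` in base `2 ^ K` -/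
def dig (D K i : ℕ) : ℕ := (D / 2 ^ (K * i)) % 2 ^ K

theorem N_le_U (R : Fin n → Fin n → Prop) (x y : Fin n) (I : Finset (Fin n)) :
    N R x y I ≤ (H2.Bal.Ext R I).ncard := by
  unfold N
  split_ifs
  · exact le_rfl
  · apply Set.ncard_le_ncard _ (Ext_finite R I)
    rintro l ⟨h1, h2, h3⟩
    exact ⟨h1, h2, h3.imp (fun h hR => h (Or.inl hR))⟩
  · exact Nat.zero_le _

theorem T_digit (hn : 0 < n) (R : Fin n → Fin n → Prop) (K : ℕ)
    (hD : T R (wt n K) univ < 2 ^ (K * (n * n))) (x y : Fin n) :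
    dig (T R (wt n K) univ) K (n * x.val + y.val) = N R x y univ := by
  classical
  have hU : (H2.Bal.Ext R univ).ncard < 2 ^ K := by
    by_contra hc
    rw [not_lt] at hc
    have h1 : wt n K ⟨n - 1, by omega⟩ ⟨n - 1, by omega⟩ *
        N R ⟨n - 1, by omega⟩ ⟨n - 1, by omega⟩ univ ≤ T R (wt n K) univ := by
      unfold T
      have h2 := Finset.single_le_sum (f := fun y : Fin n => wt n K ⟨n - 1, by omega⟩ y *
        N R ⟨n - 1, by omega⟩ y univ) (fun i _ => Nat.zero_le _)
        (Finset.mem_univ (⟨n - 1, by omega⟩ : Fin n))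
      have h3 := Finset.single_le_sum (f := fun x : Fin n => ∑ y : Fin n, wt n K x y *
        N R x y univ) (fun i _ => Nat.zero_le _)
        (Finset.mem_univ (⟨n - 1, by omega⟩ : Fin n))
      exact h2.trans h3
    have h4 : N R ⟨n - 1, by omega⟩ ⟨n - 1, by omega⟩ univ = (H2.Bal.Ext R univ).ncard := by
      unfold N; simp
    rw [h4, wt, ← pow_add] at h1
    simp only at h1
    have h5 : K * (n * n) = (K * (n * (n - 1)) + K * (n - 1)) + K := by
      obtain ⟨k, rfl⟩ := Nat.exists_eq_succ_of_ne_zero hn.ne'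
      simp only [Nat.succ_eq_add_one, Nat.add_sub_cancel]
      ring
    rw [h5, pow_add] at hD
    have := Nat.mul_le_mul_left (2 ^ (K * (n * (n - 1)) + K * (n - 1))) hc
    omega
  let f : ℕ → ℕ := fun i => if h : i < n * n then
    N R (finProdFinEquiv.symm ⟨i, h⟩).1 (finProdFinEquiv.symm ⟨i, h⟩).2 univ else 0
  have hf : ∀ i, f i < 2 ^ K := by
    intro i
    simp only [f]
    split_ifs
    · exact lt_of_le_of_lt (N_le_U _ _ _ _) hU
    · positivity
  have hfp : ∀ p : Fin n × Fin n, f (finProdFinEquiv p).val = N R p.1 p.2 univ := by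
    intro p
    simp only [f]
    rw [dif_pos (finProdFinEquiv p).2, Fin.eta, Equiv.symm_apply_apply]
  have hT : T R (wt n K) univ = ∑ i ∈ range (n * n), f i * (2 ^ K) ^ i := by
    rw [Finset.sum_range, ← Equiv.sum_comp finProdFinEquiv, Fintype.sum_prod_type, T]
    apply Finset.sum_congr rfl
    intro x _
    apply Finset.sum_congr rfl
    intro y _
    rw [hfp, mul_comm, wt, finProdFinEquiv_apply_val]
    congr 1
    rw [← pow_add, ← pow_mul]
    congr 1
    ring
  have hlt : n * x.val + y.val < n * n := by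
    have := y.2
    have hx : x.val + 1 ≤ n := x.2
    nlinarith [Nat.mul_le_mul_left n hx]
  rw [dig, hT, pow_mul, digit_of_sum f (2 ^ K) (n * n) (by positivity) hf _ hlt]
  have := hfp (x, y)
  rw [finProdFinEquiv_apply_val] at this
  rw [← this, add_comm]

/-- the check of the digits -/
def chkD (n K : ℕ) (pm : List ℕ) (D T B x0 y0 : ℕ) : Bool :=
  decide (D < 2 ^ (K * (n * n))) && decide (dig D K 0 = T) && decide (dig D K (n * x0 + y0) = B) &&
  decide (B ≤ dig D K (n * y0 + x0)) &&
  decide (∀ x y : Fin n, x.val < y.val → ¬ le n pm x y → ¬ le n pm y x →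
    dig D K (n * x.val + y.val) ≤ B ∨ dig D K (n * y.val + x.val) ≤ B)

theorem total_eq' : Nat.card {σ : Equiv.Perm (Fin n) // ∀ a b, le n pm a b → σ a ≤ σ b} =
      (H2.Bal.Ext (le n pm) univ).ncard := by
  rw [← card_perm]
  apply Nat.card_congr
  apply Equiv.subtypeEquivRight
  intro σ
  constructor
  · intro h a b hab hle
    exact lt_of_le_of_ne (h a b hle) (fun e => hab (σ.injective e))
  · intro h a b hle
    by_cases hab : a = b
    · rw [hab]
    · exact (h a b hab hle).le

theorem pair_eq' (x0 y0 : Fin n) (hxy : x0 ≠ y0) :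
    Nat.card {σ : Equiv.Perm (Fin n) // (∀ a b, le n pm a b → σ a ≤ σ b) ∧ σ x0 < σ y0} =
      N (le n pm) x0 y0 univ := by
  rw [N, if_pos ⟨mem_univ _, mem_univ _⟩, if_neg hxy, ← card_perm]
  apply Nat.card_congr
  apply Equiv.subtypeEquivRight
  intro σ
  constructor
  · rintro ⟨h, hlt⟩ a b hab hR
    rcases hR with hle | ⟨rfl, rfl⟩
    · exact lt_of_le_of_ne (h a b hle) (fun e => hab (σ.injective e))
    · exact hlt
  · intro h
    refine ⟨fun a b hle => ?_, h x0 y0 hxy (Or.inr ⟨rfl, rfl⟩)⟩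
    by_cases hab : a = b
    · rw [hab]
    · exact (h a b hab (Or.inl hle)).le

/-- The certificate. -/
theorem mem_Bset_all (K D w T0 B x0 y0 : ℕ) (col anti : List ℕ) (hT : 0 < T0)
    (hx : x0 < n) (hy : y0 < n)
    (hv : valid n pm = true) (hw : chkW n pm w col anti = true)
    (hxy : ¬ le n pm ⟨x0, hx⟩ ⟨y0, hy⟩ ∧ ¬ le n pm ⟨y0, hy⟩ ⟨x0, hx⟩)
    (hr : isRes n K pm D = true) (hc : chkD n K pm D T0 B x0 y0 = true) :
    (B : ℝ) / T0 ∈ Bset w := by
  have hn : 0 < n := by omega
  have hDT := isRes_spec hv K D hr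
  unfold chkD at hc
  simp only [Bool.and_eq_true, decide_eq_true_eq] at hc
  obtain ⟨⟨⟨⟨hD, hT0⟩, hB1⟩, hB2⟩, hc⟩ := hc
  have hdig : ∀ x y : Fin n, dig D K (n * x.val + y.val) = N (le n pm) x y univ := by
    intro x y
    have := T_digit hn (le n pm) K (by rw [← hDT]; exact hD) x y
    rw [← hDT] at this
    exact this
  refine ⟨n, le n pm, le_refl', le_trans' hv, le_antisymm' hv, (width_of_chkW w col anti hw).1,
    (width_of_chkW w col anti hw).2, ?_⟩
  have htot : Nat.card {σ : Equiv.Perm (Fin n) // ∀ a b, le n pm a b → σ a ≤ σ b} = T0 := by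
    rw [total_eq']
    have h1 := hdig ⟨0, hn⟩ ⟨0, hn⟩
    simp only [mul_zero, add_zero] at h1
    rw [hT0] at h1
    rw [h1]
    unfold N; simp
  have hTpos : (0 : ℝ) < T0 := by exact_mod_cast hT
  have hne : (⟨x0, hx⟩ : Fin n) ≠ ⟨y0, hy⟩ := fun h => hxy.1 (Or.inl h)
  symm
  apply csSup_eq_of_forall_le_of_forall_lt_exists_gt
  · exact ⟨_, ⟨x0, hx⟩, ⟨y0, hy⟩, hxy.1, hxy.2, rfl⟩
  · have key : ∀ x y : Fin n, x.val < y.val → ¬ le n pm x y → ¬ le n pm y x →
        min
          ((Nat.card {σ : Equiv.Perm (Fin n) //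
              (∀ a b, le n pm a b → σ a ≤ σ b) ∧ σ x < σ y} : ℝ) /
            (Nat.card {σ : Equiv.Perm (Fin n) // ∀ a b, le n pm a b → σ a ≤ σ b} : ℝ))
          ((Nat.card {σ : Equiv.Perm (Fin n) //
              (∀ a b, le n pm a b → σ a ≤ σ b) ∧ σ y < σ x} : ℝ) /
            (Nat.card {σ : Equiv.Perm (Fin n) // ∀ a b, le n pm a b → σ a ≤ σ b} : ℝ)) ≤
          (B : ℝ) / T0 := by
      intro x y hlt h1 h2
      have hxy' : x ≠ y := fun h => h1 (Or.inl h)
      rw [htot]
      rcases hc x y hlt h1 h2 with h | h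
      · apply min_le_of_left_le
        rw [pair_eq' x y hxy', ← hdig]
        gcongr
      · apply min_le_of_right_le
        rw [pair_eq' y x hxy'.symm, ← hdig]
        gcongr
    rintro t ⟨x, y, h1, h2, rfl⟩
    rcases lt_trichotomy x.val y.val with h | h | h
    · exact key x y h h1 h2
    · exact absurd (Or.inl (Fin.ext h)) h1
    · rw [min_comm]; exact key y x h h2 h1
  · intro t ht
    refine ⟨_, ⟨⟨x0, hx⟩, ⟨y0, hy⟩, hxy.1, hxy.2, rfl⟩, lt_of_lt_of_le ht ?_⟩
    rw [htot, pair_eq' ⟨x0, hx⟩ ⟨y0, hy⟩ hne, pair_eq' ⟨y0, hy⟩ ⟨x0, hx⟩ hne.symm, ← hdig, ← hdig,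
      hB1]
    apply le_min le_rfl
    have : (B : ℝ) ≤ (dig D K (n * y0 + x0) : ℝ) := by exact_mod_cast hB2
    gcongr

end Pool.Agent.H88.BalC
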