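import Pool.Graph.R_pool_sql_team_8f841797.H2.Bal1

/-! Counting linear extensions of a poset on `Fin n` by a table of down-sets (bit masks). -/

namespace Pool.Agent.H88.BalC

open Finset Pool.Agent.H2.Bal

/-- add `c` to the entry of `m` in an association list -/
def ins (m c : ℕ) : List (ℕ × ℕ) → List (ℕ × ℕ)
  | [] => [(m, c)]
  | (k, d) :: L => if k = m then (k, d + c) :: L else (k, d) :: ins m c L

/-- distribute the entry `(m, c)` to the masks without one minimal element -/
def dist (m c : ℕ) : List (ℕ × ℕ) → List (ℕ × ℕ) → List (ℕ × ℕ)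
  | [], acc => acc
  | (b, p) :: P, acc =>
    if m &&& b ≠ 0 ∧ m &&& p = 0 then dist m c P (ins (m ^^^ b) c acc) else dist m c P acc

/-- one step for all entries -/
def step (P : List (ℕ × ℕ)) : List (ℕ × ℕ) → List (ℕ × ℕ) → List (ℕ × ℕ)
  | [], acc => acc
  | (m, c) :: L, acc => step P L (dist m c P acc)

def run (P : List (ℕ × ℕ)) : ℕ → List (ℕ × ℕ) → List (ℕ × ℕ)
  | 0, L => L
  | k + 1, L => run P k (step P L [])

/-- the value of a functional on an association list -/
def val (F : ℕ → ℕ) (L : List (ℕ × ℕ)) : ℕ := (L.map (fun e => e.2 * F e.1)).sum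

theorem val_ins (F : ℕ → ℕ) (m c : ℕ) (L : List (ℕ × ℕ)) :
    val F (ins m c L) = c * F m + val F L := by
  induction L with
  | nil => simp [ins, val]
  | cons e L ih =>
    obtain ⟨k, d⟩ := e
    simp only [ins]
    split_ifs with h
    · subst h; simp [val]; ring
    · simp only [val, List.map_cons, List.sum_cons] at ih ⊢
      rw [ih]; ring

/-- the sum over the minimal elements -/
def msum (F : ℕ → ℕ) (m : ℕ) (P : List (ℕ × ℕ)) : ℕ :=
  (P.map (fun e => if m &&& e.1 ≠ 0 ∧ m &&& e.2 = 0 then F (m ^^^ e.1) else 0)).sum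

theorem val_dist (F : ℕ → ℕ) (m c : ℕ) (P acc : List (ℕ × ℕ)) :
    val F (dist m c P acc) = c * msum F m P + val F acc := by
  induction P generalizing acc with
  | nil => simp [dist, msum]
  | cons e P ih =>
    obtain ⟨b, p⟩ := e
    simp only [dist]
    split_ifs with h
    · rw [ih, val_ins]; simp only [msum, List.map_cons, List.sum_cons, if_pos h]; ring
    · rw [ih]; simp only [msum, List.map_cons, List.sum_cons, if_neg h]; ring

theorem val_step (F : ℕ → ℕ) (P L acc : List (ℕ × ℕ)) :
    val F (step P L acc) = (L.map (fun e => e.2 * msum F e.1 P)).sum + val F acc := by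
  induction L generalizing acc with
  | nil => simp [step]
  | cons e L ih =>
    obtain ⟨m, c⟩ := e
    simp only [step, List.map_cons, List.sum_cons]
    rw [ih, val_dist]; ring

variable {n : ℕ}

/-- the elements of a mask -/
def els (n m : ℕ) : Finset (Fin n) := univ.filter (fun x => m.testBit x.val = true)

theorem mem_els (m : ℕ) (x : Fin n) : x ∈ els n m ↔ m.testBit x.val = true := by simp [els]

theorem and_two_pow_ne (m k : ℕ) : m &&& 2 ^ k ≠ 0 ↔ m.testBit k = true := by
  constructor
  · intro h
    by_contra hc
    apply h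
    apply Nat.eq_of_testBit_eq
    intro i
    simp only [Nat.testBit_and, Nat.testBit_two_pow, Nat.zero_testBit, Bool.and_eq_false_iff,
      decide_eq_false_iff_not]
    by_cases hi : k = i
    · subst hi; left; simpa using hc
    · right; exact hi
  · intro h hz
    have := congrArg (fun t => Nat.testBit t k) hz
    simp [h] at this

theorem and_eq_zero (m p : ℕ) : m &&& p = 0 ↔ ∀ i, m.testBit i = true → p.testBit i = false := by
  constructor
  · intro h i hi
    have := congrArg (fun t => Nat.testBit t i) h
    simpa [hi] using this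
  · intro h
    apply Nat.eq_of_testBit_eq
    intro i
    simp only [Nat.testBit_and, Nat.zero_testBit, Bool.and_eq_false_iff]
    by_cases hi : m.testBit i = true
    · right; exact h i hi
    · left; simpa using hi

/-- the list `P` describes the relation `R` on `Fin n` -/
def Describes (n : ℕ) (R : Fin n → Fin n → Prop) (P : List (ℕ × ℕ)) : Prop :=
  ∃ p : Fin n → ℕ, P = (List.finRange n).map (fun x => (2 ^ x.val, p x)) ∧
    ∀ x : Fin n, ∀ i : ℕ, (p x).testBit i = true ↔ ∃ h : i < n, i ≠ x.val ∧ R ⟨i, h⟩ x

theorem msum_eq (R : Fin n → Fin n → Prop) (P : List (ℕ × ℕ)) (hP : Describes n R P) (m : ℕ)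
    (hm : (els n m).Nonempty) :
    (Ext R (els n m)).ncard = msum (fun m => (Ext R (els n m)).ncard) m P := by
  classical
  obtain ⟨p, rfl, hp⟩ := hP
  rw [Ext_rec R _ hm]
  have e1 : msum (fun m => (Ext R (els n m)).ncard) m
      ((List.finRange n).map (fun x => (2 ^ x.val, p x))) =
      ∑ x : Fin n, if m &&& 2 ^ x.val ≠ 0 ∧ m &&& p x = 0 then
        (Ext R (els n (m ^^^ 2 ^ x.val))).ncard else 0 := by
    rw [msum, List.map_map, ← List.ofFn_eq_map, List.sum_ofFn]
    rfl
  rw [e1, ← Finset.sum_filter]
  have hset : ∀ x : Fin n, (x ∈ els n m ∧ ∀ b ∈ (els n m).erase x, ¬ R b x) ↔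
      (m &&& 2 ^ x.val ≠ 0 ∧ m &&& p x = 0) := by
    intro x
    rw [mem_els, and_two_pow_ne, and_eq_zero]
    constructor
    · rintro ⟨h1, h2⟩
      refine ⟨h1, fun i hi => ?_⟩
      by_contra hc
      have hc' : (p x).testBit i = true := by simpa using hc
      obtain ⟨hi', hne, hR⟩ := (hp x i).1 hc'
      refine h2 ⟨i, hi'⟩ ?_ hR
      rw [Finset.mem_erase, mem_els]
      exact ⟨fun h => hne (congrArg Fin.val h), hi⟩
    · rintro ⟨h1, h2⟩
      refine ⟨h1, fun b hb hR => ?_⟩
      rw [Finset.mem_erase, mem_els] at hb
      have h3 := h2 b.val hb.2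
      have h4 := (hp x b.val).2 ⟨b.2, fun h => hb.1 (Fin.ext h), hR⟩
      rw [h3] at h4; exact absurd h4 (by decide)
  apply Finset.sum_congr
  · ext x
    have := hset x
    simp only [Finset.mem_filter, Finset.mem_univ, true_and]
    exact this
  intro x hx
  simp only [Finset.mem_filter, Finset.mem_univ, true_and] at hx
  have hx1 := (and_two_pow_ne m x.val).1 hx.1
  have : (els n m).erase x = els n (m ^^^ 2 ^ x.val) := by
    ext y
    rw [Finset.mem_erase, mem_els, mem_els, Nat.testBit_xor, Nat.testBit_two_pow]
    by_cases hxy : x.val = y.val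
    · have : x = y := Fin.ext hxy
      subst this
      simp [hx1]
    · have : y ≠ x := fun h => hxy (by rw [h])
      simp [this, hxy]
  rw [this]

theorem card_els_pos (R : Fin n → Fin n → Prop) (P : List (ℕ × ℕ)) (hP : Describes n R P)
    (L : List (ℕ × ℕ)) (h : ∀ e ∈ L, (els n e.1).Nonempty) :
    val (fun m => (Ext R (els n m)).ncard) (step P L []) =
      val (fun m => (Ext R (els n m)).ncard) L := by
  rw [val_step]
  simp only [val, List.map_nil, List.sum_nil, add_zero]
  congr 1
  apply List.map_congr_left
  intro e he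
  rw [← msum_eq R P hP e.1 (h e he)]

/-- all the masks of the list are nonzero below `2 ^ n` -/
def good (n : ℕ) : List (ℕ × ℕ) → Bool
  | [] => true
  | (m, _) :: L => decide (m % 2 ^ n ≠ 0) && good n L

theorem good_spec (L : List (ℕ × ℕ)) (h : good n L = true) :
    ∀ e ∈ L, (els n e.1).Nonempty := by
  induction L with
  | nil => simp
  | cons e L ih =>
    obtain ⟨m, c⟩ := e
    simp only [good, Bool.and_eq_true, decide_eq_true_eq] at h
    intro e he
    rcases List.mem_cons.1 he with rfl | he
    · obtain ⟨i, hi⟩ := Nat.exists_testBit_of_ne_zero h.1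
      rw [Nat.testBit_mod_two_pow] at hi
      simp only [Bool.and_eq_true, decide_eq_true_eq] at hi
      exact ⟨⟨i, hi.1⟩, by rw [mem_els]; exact hi.2⟩
    · exact ih h.2 e he

/-- run the table, checking on the way that no mask is empty -/
def runG (n : ℕ) (P : List (ℕ × ℕ)) : ℕ → List (ℕ × ℕ) → Option (List (ℕ × ℕ))
  | 0, L => some L
  | k + 1, L => if good n L then runG n P k (step P L []) else none

theorem runG_spec (R : Fin n → Fin n → Prop) (P : List (ℕ × ℕ)) (hP : Describes n R P) (k : ℕ)
    (L L' : List (ℕ × ℕ)) (h : runG n P k L = some L') :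
    val (fun m => (Ext R (els n m)).ncard) L' = val (fun m => (Ext R (els n m)).ncard) L := by
  induction k generalizing L with
  | zero => simp only [runG, Option.some.injEq] at h; rw [h]
  | succ k ih =>
    simp only [runG] at h
    split_ifs at h with hg
    · rw [ih _ h, card_els_pos R P hP L (good_spec L hg)]

/-- the number of linear extensions computed by the table -/
def cntL (n : ℕ) (P : List (ℕ × ℕ)) : ℕ :=
  match runG n P n [(2 ^ n - 1, 1)] with
  | some [(0, c)] => c
  | _ => 0

/-- the table did not fail -/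
def okL (n : ℕ) (P : List (ℕ × ℕ)) : Bool :=
  match runG n P n [(2 ^ n - 1, 1)] with
  | some [(0, _)] => true
  | some [] => true
  | _ => false

theorem els_full : els n (2 ^ n - 1) = univ := by
  ext x
  rw [mem_els, Nat.testBit_two_pow_sub_one]
  simp [x.2]

theorem els_zero : els n 0 = ∅ := by
  ext x; rw [mem_els]; simp

theorem cntL_spec (R : Fin n → Fin n → Prop) (P : List (ℕ × ℕ)) (hP : Describes n R P)
    (h : okL n P = true) : (Ext R univ).ncard = cntL n P := by
  unfold okL at h
  unfold cntL
  split at h
  · rename_i c heq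
    rw [heq]
    have := runG_spec R P hP n _ _ heq
    simp only [val, List.map_cons, List.map_nil, List.sum_cons, List.sum_nil, add_zero, els_full,
      els_zero, Ext_empty, Set.ncard_singleton, one_mul, mul_one] at this
    exact this.symm
  · rename_i heq
    rw [heq]
    have := runG_spec R P hP n _ _ heq
    simp only [val, List.map_cons, List.map_nil, List.sum_cons, List.sum_nil, add_zero, els_full,
      one_mul] at this
    exact this.symm
  · exact absurd h (by decide)

end Pool.Agent.H88.BalC
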