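import Pool.Agent.H88.BalCount

/-! Certified balance constants of posets on `Fin n` given by masks of predecessors. -/

namespace Pool.Agent.H88.BalC

open Finset Pool.Agent.H2.Bal

/-- The set `B_w` of the problem: the balance constants of the finite posets of width `w`. -/
def Bset (w : ℕ) : Set ℝ :=
  {d : ℝ | ∃ (n : ℕ) (r : Fin n → Fin n → Prop),
      (∀ a, r a a) ∧ (∀ a b c, r a b → r b c → r a c) ∧
      (∀ a b, r a b → r b a → a = b) ∧
      (∃ s : Finset (Fin n), s.card = w ∧ ∀ a ∈ s, ∀ b ∈ s, a ≠ b → ¬ r a b) ∧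
      (∀ s : Finset (Fin n), (∀ a ∈ s, ∀ b ∈ s, a ≠ b → ¬ r a b) → s.card ≤ w) ∧
      d = sSup {t : ℝ | ∃ x y : Fin n, ¬ r x y ∧ ¬ r y x ∧
        t = min
          ((Nat.card {σ : Equiv.Perm (Fin n) //
              (∀ a b, r a b → σ a ≤ σ b) ∧ σ x < σ y} : ℝ) /
            (Nat.card {σ : Equiv.Perm (Fin n) // ∀ a b, r a b → σ a ≤ σ b} : ℝ))
          ((Nat.card {σ : Equiv.Perm (Fin n) //
              (∀ a b, r a b → σ a ≤ σ b) ∧ σ y < σ x} : ℝ) /
            (Nat.card {σ : Equiv.Perm (Fin n) // ∀ a b, r a b → σ a ≤ σ b} : ℝ))}}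

theorem card_perm {n : ℕ} (R : Fin n → Fin n → Prop) :
    Nat.card {σ : Equiv.Perm (Fin n) // ∀ a b, a ≠ b → R a b → σ a < σ b} = (Ext R univ).ncard := by
  rw [← card_equiv_eq R]
  apply Nat.card_congr
  refine Equiv.subtypeEquiv
    (Equiv.equivCongr (Equiv.refl _) (finCongr (Fintype.card_fin n).symm)) ?_
  intro σ
  simp

/-- the mask of the strict predecessors of `x` -/
def pr (pm : List ℕ) (x : ℕ) : ℕ := pm.getD x 0

/-- the order given by the masks -/
def le (n : ℕ) (pm : List ℕ) (a b : Fin n) : Prop := a = b ∨ (pr pm b.val).testBit a.val = true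

instance (n : ℕ) (pm : List ℕ) (a b : Fin n) : Decidable (le n pm a b) := by
  unfold le; infer_instance

/-- the table for the order -/
def tab0 (n : ℕ) (pm : List ℕ) : List (ℕ × ℕ) :=
  (List.finRange n).map (fun x => (2 ^ x.val, pr pm x.val))

/-- the table for the order together with `x0 < y0` -/
def tab (n : ℕ) (pm : List ℕ) (x0 y0 : ℕ) : List (ℕ × ℕ) :=
  (List.finRange n).map (fun x => (2 ^ x.val,
    if x.val = y0 then pr pm x.val ||| 2 ^ x0 else pr pm x.val))

/-- the masks are below `2 ^ n` and have no loops, and the relation is transitive and antisymmetric -/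
def valid (n : ℕ) (pm : List ℕ) : Bool :=
  decide (∀ x : Fin n, pr pm x.val < 2 ^ n ∧ (pr pm x.val).testBit x.val = false) &&
  decide (∀ a b : Fin n, (pr pm b.val).testBit a.val = true →
    pr pm a.val &&& pr pm b.val = pr pm a.val)

theorem testBit_lt {m n i : ℕ} (hm : m < 2 ^ n) (h : m.testBit i = true) : i < n := by
  by_contra hc
  have : m.testBit i = false := Nat.testBit_lt_two_pow (lt_of_lt_of_le hm (Nat.pow_le_pow_right (by norm_num) (not_lt.1 hc)))
  rw [h] at this; exact absurd this (by decide)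

variable {n : ℕ} {pm : List ℕ}

theorem le_refl' (a : Fin n) : le n pm a a := Or.inl rfl

theorem le_trans' (hv : valid n pm = true) (a b c : Fin n) (h1 : le n pm a b) (h2 : le n pm b c) :
    le n pm a c := by
  unfold valid at hv
  rw [Bool.and_eq_true, decide_eq_true_eq, decide_eq_true_eq] at hv
  rcases h1 with rfl | h1
  · exact h2
  rcases h2 with rfl | h2
  · exact Or.inr h1
  right
  have := hv.2 b c h2
  rw [← this, Nat.testBit_and] at h1
  simp only [Bool.and_eq_true] at h1
  exact h1.2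

theorem le_antisymm' (hv : valid n pm = true) (a b : Fin n) (h1 : le n pm a b)
    (h2 : le n pm b a) : a = b := by
  unfold valid at hv
  rw [Bool.and_eq_true, decide_eq_true_eq, decide_eq_true_eq] at hv
  rcases h1 with h1 | h1
  · exact h1
  rcases h2 with h2 | h2
  · exact h2.symm
  exfalso
  have h3 := hv.2 b a h2
  rw [← h3, Nat.testBit_and] at h1
  simp only [Bool.and_eq_true] at h1
  have := (hv.1 a).2
  rw [this] at h1; exact absurd h1.2 (by decide)

theorem describes0 (hv : valid n pm = true) :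
    Describes n (fun a b => le n pm a b) (tab0 n pm) := by
  unfold valid at hv
  rw [Bool.and_eq_true, decide_eq_true_eq, decide_eq_true_eq] at hv
  refine ⟨fun x => pr pm x.val, rfl, fun x i => ⟨fun h => ?_, ?_⟩⟩
  · have hi := testBit_lt (hv.1 x).1 h
    refine ⟨hi, ?_, Or.inr h⟩
    rintro rfl
    rw [(hv.1 x).2] at h; exact absurd h (by decide)
  · rintro ⟨hi, hne, h⟩
    rcases h with h | h
    · exact absurd (congrArg Fin.val h) hne
    · exact h

theorem describes1 (hv : valid n pm = true) (x0 y0 : Fin n) (hxy : x0 ≠ y0) :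
    Describes n (fun a b => le n pm a b ∨ (a = x0 ∧ b = y0)) (tab n pm x0.val y0.val) := by
  unfold valid at hv
  rw [Bool.and_eq_true, decide_eq_true_eq, decide_eq_true_eq] at hv
  refine ⟨fun x => if x.val = y0.val then pr pm x.val ||| 2 ^ x0.val else pr pm x.val, rfl,
    fun x i => ⟨fun h => ?_, ?_⟩⟩
  · simp only at h
    split_ifs at h with hxy0
    · rw [Nat.testBit_or, Nat.testBit_two_pow, Bool.or_eq_true, decide_eq_true_eq] at h
      rcases h with h | h
      · have hi := testBit_lt (hv.1 x).1 h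
        refine ⟨hi, ?_, Or.inl (Or.inr h)⟩
        rintro rfl
        rw [(hv.1 x).2] at h; exact absurd h (by decide)
      · subst h
        refine ⟨x0.2, ?_, Or.inr ⟨rfl, Fin.ext hxy0⟩⟩
        rw [hxy0]; exact fun h => hxy (Fin.ext h)
    · have hi := testBit_lt (hv.1 x).1 h
      refine ⟨hi, ?_, Or.inl (Or.inr h)⟩
      rintro rfl
      rw [(hv.1 x).2] at h; exact absurd h (by decide)
  · rintro ⟨hi, hne, h⟩
    simp only
    rcases h with h | h
    · rcases h with h | h
      · exact absurd (congrArg Fin.val h) hne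
      · split_ifs with hxy0
        · rw [Nat.testBit_or, h]; rfl
        · exact h
    · obtain ⟨h1, h2⟩ := h
      subst h2
      rw [if_pos rfl, Nat.testBit_or, Nat.testBit_two_pow]
      have : x0.val = i := by rw [← h1]
      simp [this]

theorem total_eq (hv : valid n pm = true) (hok : okL n (tab0 n pm) = true) :
    Nat.card {σ : Equiv.Perm (Fin n) // ∀ a b, le n pm a b → σ a ≤ σ b} =
      cntL n (tab0 n pm) := by
  rw [← cntL_spec _ _ (describes0 hv) hok, ← card_perm]
  apply Nat.card_congr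
  apply Equiv.subtypeEquivRight
  intro σ
  constructor
  · intro h a b hab hle
    exact lt_of_le_of_ne (h a b hle) (fun e => hab (σ.injective e))
  · intro h a b hle
    by_cases hab : a = b
    · rw [hab]
    · exact (h a b hab hle).le

theorem pair_eq (hv : valid n pm = true) (x0 y0 : Fin n) (hxy : x0 ≠ y0)
    (hok : okL n (tab n pm x0.val y0.val) = true) :
    Nat.card {σ : Equiv.Perm (Fin n) // (∀ a b, le n pm a b → σ a ≤ σ b) ∧ σ x0 < σ y0} =
      cntL n (tab n pm x0.val y0.val) := by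
  rw [← cntL_spec _ _ (describes1 hv x0 y0 hxy) hok, ← card_perm]
  apply Nat.card_congr
  apply Equiv.subtypeEquivRight
  intro σ
  constructor
  · rintro ⟨h, hlt⟩ a b hab hR
    rcases hR with hle | ⟨rfl, rfl⟩
    · exact lt_of_le_of_ne (h a b hle) (fun e => hab (σ.injective e))
    · exact hlt
  · intro h
    refine ⟨fun a b hle => ?_, h x0 y0 hxy (Or.inr ⟨rfl, rfl⟩)⟩
    by_cases hab : a = b
    · rw [hab]
    · exact (h a b hab (Or.inl hle)).le

/-- `true` if the table computes a number `≤ B` of linear extensions with `x0` before `y0` -/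
def chk1 (n : ℕ) (pm : List ℕ) (B x0 y0 : ℕ) : Bool :=
  match runG n (tab n pm x0 y0) n [(2 ^ n - 1, 1)] with
  | some [(0, c)] => decide (c ≤ B)
  | _ => false

theorem chk1_spec (B x0 y0 : ℕ) (h : chk1 n pm B x0 y0 = true) :
    okL n (tab n pm x0 y0) = true ∧ cntL n (tab n pm x0 y0) ≤ B := by
  unfold chk1 at h
  unfold okL cntL
  split at h
  · rename_i c heq
    rw [heq]
    exact ⟨rfl, by simpa using h⟩
  · exact absurd h (by decide)

/-- all incomparable pairs are at most `B / T` balanced -/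
def chk (n : ℕ) (pm : List ℕ) (B : ℕ) : Bool :=
  decide (∀ x y : Fin n, x.val < y.val → ¬ le n pm x y → ¬ le n pm y x →
    chk1 n pm B x.val y.val = true ∨ chk1 n pm B y.val x.val = true)

/-- exact value at one pair -/
def chkE (n : ℕ) (pm : List ℕ) (T B x0 y0 : ℕ) : Bool :=
  (match runG n (tab0 n pm) n [(2 ^ n - 1, 1)] with
  | some [(0, c)] => decide (c = T)
  | _ => false) &&
  (match runG n (tab n pm x0 y0) n [(2 ^ n - 1, 1)] with
  | some [(0, c)] => decide (c = B)
  | _ => false) &&
  (match runG n (tab n pm y0 x0) n [(2 ^ n - 1, 1)] with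
  | some [(0, c)] => decide (B ≤ c)
  | _ => false)

theorem chkE_spec (T B x0 y0 : ℕ) (h : chkE n pm T B x0 y0 = true) :
    okL n (tab0 n pm) = true ∧ cntL n (tab0 n pm) = T ∧
    okL n (tab n pm x0 y0) = true ∧ cntL n (tab n pm x0 y0) = B ∧
    okL n (tab n pm y0 x0) = true ∧ B ≤ cntL n (tab n pm y0 x0) := by
  unfold chkE at h
  rw [Bool.and_eq_true, Bool.and_eq_true] at h
  obtain ⟨⟨h1, h2⟩, h3⟩ := h
  unfold okL cntL
  refine ⟨?_, ?_, ?_, ?_, ?_, ?_⟩
  · split at h1
    · rename_i c heq; rw [heq]; rfl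
    · exact absurd h1 (by decide)
  · split at h1
    · rename_i c heq; rw [heq]; simpa using h1
    · exact absurd h1 (by decide)
  · split at h2
    · rename_i c heq; rw [heq]; rfl
    · exact absurd h2 (by decide)
  · split at h2
    · rename_i c heq; rw [heq]; simpa using h2
    · exact absurd h2 (by decide)
  · split at h3
    · rename_i c heq; rw [heq]; rfl
    · exact absurd h3 (by decide)
  · split at h3
    · rename_i c heq; rw [heq]; simpa using h3
    · exact absurd h3 (by decide)

/-- chain cover and antichain -/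
def chkW (n : ℕ) (pm : List ℕ) (w : ℕ) (col : List ℕ) (anti : List ℕ) : Bool :=
  decide (∀ x : Fin n, col.getD x.val 0 < w) &&
  decide (∀ x y : Fin n, col.getD x.val 0 = col.getD y.val 0 → le n pm x y ∨ le n pm y x) &&
  decide (anti.length = w) && decide (anti.Nodup) && decide (∀ a ∈ anti, a < n) &&
  decide (∀ x y : Fin n, x.val ∈ anti → y.val ∈ anti → x ≠ y → ¬ le n pm x y)

theorem width_of_chkW (w : ℕ) (col anti : List ℕ) (h : chkW n pm w col anti = true) :
    (∃ s : Finset (Fin n), s.card = w ∧ ∀ a ∈ s, ∀ b ∈ s, a ≠ b → ¬ le n pm a b) ∧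
    (∀ s : Finset (Fin n), (∀ a ∈ s, ∀ b ∈ s, a ≠ b → ¬ le n pm a b) → s.card ≤ w) := by
  unfold chkW at h
  simp only [Bool.and_eq_true, decide_eq_true_eq] at h
  obtain ⟨⟨⟨⟨⟨h1, h2⟩, h3⟩, h4⟩, h5⟩, h6⟩ := h
  constructor
  · refine ⟨univ.filter (fun x : Fin n => x.val ∈ anti), ?_, ?_⟩
    · have : (univ.filter (fun x : Fin n => x.val ∈ anti)).image Fin.val = anti.toFinset := by
        ext a
        simp only [Finset.mem_image, Finset.mem_filter, Finset.mem_univ, true_and,
          List.mem_toFinset]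
        constructor
        · rintro ⟨x, hx, rfl⟩; exact hx
        · intro ha; exact ⟨⟨a, h5 a ha⟩, ha, rfl⟩
      rw [← Finset.card_image_of_injective _ Fin.val_injective, this,
        List.toFinset_card_of_nodup h4, h3]
    · intro a ha b hb hab
      simp only [Finset.mem_filter, Finset.mem_univ, true_and] at ha hb
      exact h6 a b ha hb hab
  · intro s hs
    have : (s.image (fun x : Fin n => col.getD x.val 0)).card = s.card := by
      apply Finset.card_image_of_injOn
      intro a ha b hb hab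
      by_contra hne
      rcases h2 a b hab with h | h
      · exact hs a ha b hb hne h
      · exact hs b hb a ha (fun e => hne e.symm) h
    rw [← this]
    calc (s.image (fun x : Fin n => col.getD x.val 0)).card ≤ (Finset.range w).card := by
          apply Finset.card_le_card
          intro a ha
          rw [Finset.mem_image] at ha
          obtain ⟨x, -, rfl⟩ := ha
          exact Finset.mem_range.2 (h1 x)
      _ = w := Finset.card_range w

theorem bset_nonneg (w : ℕ) (d : ℝ) (hd : d ∈ Bset w) : 0 ≤ d := by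
  obtain ⟨n, r, -, -, -, -, -, rfl⟩ := hd
  apply Real.sSup_nonneg
  rintro t ⟨x, y, -, -, rfl⟩
  positivity

/-- The certificate. -/
theorem mem_Bset (w T B x0 y0 : ℕ) (col anti : List ℕ) (hT : 0 < T)
    (hx : x0 < n) (hy : y0 < n)
    (hv : valid n pm = true) (hw : chkW n pm w col anti = true)
    (hxy : ¬ le n pm ⟨x0, hx⟩ ⟨y0, hy⟩ ∧ ¬ le n pm ⟨y0, hy⟩ ⟨x0, hx⟩)
    (hE : chkE n pm T B x0 y0 = true) (hc : chk n pm B = true) :
    (B : ℝ) / T ∈ Bset w := by
  obtain ⟨hok0, hT0, hok1, hB1, hok2, hB2⟩ := chkE_spec T B x0 y0 hE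
  refine ⟨n, le n pm, le_refl', le_trans' hv, le_antisymm' hv, (width_of_chkW w col anti hw).1,
    (width_of_chkW w col anti hw).2, ?_⟩
  have htot := total_eq hv hok0
  rw [hT0] at htot
  have hTpos : (0 : ℝ) < T := by exact_mod_cast hT
  unfold chk at hc
  rw [decide_eq_true_eq] at hc
  have hne : (⟨x0, hx⟩ : Fin n) ≠ ⟨y0, hy⟩ := fun h => hxy.1 (Or.inl h)
  symm
  apply csSup_eq_of_forall_le_of_forall_lt_exists_gt
  · exact ⟨_, ⟨x0, hx⟩, ⟨y0, hy⟩, hxy.1, hxy.2, rfl⟩
  · have key : ∀ x y : Fin n, x.val < y.val → ¬ le n pm x y → ¬ le n pm y x →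
        min
          ((Nat.card {σ : Equiv.Perm (Fin n) //
              (∀ a b, le n pm a b → σ a ≤ σ b) ∧ σ x < σ y} : ℝ) /
            (Nat.card {σ : Equiv.Perm (Fin n) // ∀ a b, le n pm a b → σ a ≤ σ b} : ℝ))
          ((Nat.card {σ : Equiv.Perm (Fin n) //
              (∀ a b, le n pm a b → σ a ≤ σ b) ∧ σ y < σ x} : ℝ) /
            (Nat.card {σ : Equiv.Perm (Fin n) // ∀ a b, le n pm a b → σ a ≤ σ b} : ℝ)) ≤
          (B : ℝ) / T := by
      intro x y hlt h1 h2
      have hxy' : x ≠ y := fun h => h1 (Or.inl h)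
      rw [htot]
      rcases hc x y hlt h1 h2 with h | h
      · obtain ⟨ho, hle⟩ := chk1_spec B x.val y.val h
        apply min_le_of_left_le
        rw [pair_eq hv x y hxy' ho]
        gcongr
      · obtain ⟨ho, hle⟩ := chk1_spec B y.val x.val h
        apply min_le_of_right_le
        rw [pair_eq hv y x hxy'.symm ho]
        gcongr
    rintro t ⟨x, y, h1, h2, rfl⟩
    rcases lt_trichotomy x.val y.val with h | h | h
    · exact key x y h h1 h2
    · exact absurd (Or.inl (Fin.ext h)) h1
    · rw [min_comm]; exact key y x h h2 h1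
  · intro t ht
    refine ⟨_, ⟨⟨x0, hx⟩, ⟨y0, hy⟩, hxy.1, hxy.2, rfl⟩, lt_of_lt_of_le ht ?_⟩
    rw [htot, pair_eq hv ⟨x0, hx⟩ ⟨y0, hy⟩ hne hok1, pair_eq hv ⟨y0, hy⟩ ⟨x0, hx⟩ hne.symm hok2,
      hB1]
    apply le_min le_rfl
    have : (B : ℝ) ≤ (cntL n (tab n pm y0 x0) : ℝ) := by exact_mod_cast hB2
    gcongr

theorem delta_le (δ : ℕ → ℝ) (hδ : ∀ w, δ w = sInf (Bset w)) (w : ℕ) (c : ℝ) (h : c ∈ Bset w) :
    δ w ≤ c := by
  rw [hδ w]
  exact csInf_le ⟨0, fun d hd => bset_nonneg w d hd⟩ h

end Pool.Agent.H88.BalC
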