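import Pool.Agent.H88.BalAll

/-! An explicit poset of width 3 with a small balance constant. -/


namespace Pool.Agent.H88.BalC

def pm3 : List ℕ := [0, 0, 1, 1, 11, 7, 39, 103, 111, 255]

def D3 : ℕ := 0x5d8d40000000000000000010cbb20000002d0000000005d9ed76000010412000000176bb5daec00791080000005daed76bb5da68840000001768e3d10842bb0002400005daed649a3caed76411680176bb5daed76b23d2ec80005daed76bb5daed1c7b5d8d576bb5daed76bb5daed0cbb

theorem mem3 : (66 : ℝ) / 187 ∈ Bset 3 := by
  have := mem_Bset_all (n := 10) (pm := pm3) 9 D3 3 187 66 4 6 [0, 1, 0, 2, 1, 0, 0, 0, 2, 1] [1, 2, 3] (by norm_num)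
    (by norm_num) (by norm_num) (by decide +kernel) (by decide +kernel) (by decide +kernel)
    (by decide +kernel) (by decide +kernel)
  exact_mod_cast this

end Pool.Agent.H88.BalC
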