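import Pool.Agent.H88.BalAll

/-! An explicit poset of width 5 with a small balance constant. -/


namespace Pool.Agent.H88.BalC

def pm5 : List ℕ := [0, 0, 2, 2, 2, 11, 11, 15, 43, 159, 191, 191, 1535, 1983, 1535, 5631, 16383, 24575, 188415]

def D5 : ℕ := 0x6c44b000000023c29600000000000006462c0000000000000000000000000000000000000000000000000000000000000000000000000000006c44b06c44b049537825fc4800000018f57000000000000000000000000000000000000000000000000000000000000000000000000000000048821a22f1386c44b018df8007bdca0000000000000000000000000000000000000000000000000000000000000000000000000000000000006c44b04648685365306c44b017f3d8268a0e0000000d823000000006a4c60000000000000000000000000000000000000000000000000000006c44b06c44b06486e65450d86c44b043982028954c2025d800000013580800000000000000000000000000000000000000000000000000000065fe84534f406c44b045baa228ac906c44b01ca40e16d80400000000000000000000000002aa660000000000000000000000000000000000006c44b06c44b06c44b06c44b043af644fa0a26c44b029165800000019ac680000000000000000000000000000000000000000000000000000006c44b06c44b06c44b05ec2804c1ed8556cac432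e586c44b01c503f28cbf71642170000001159750000000000000000000000000000000000006c44b06c44b06c44b06c44b06c44b06c44b06c44b04ff4716c44b04379ef28cad70000001ea2430000000000000000000000000000000000006c44b06c44b06c44b0659fea58eca86c44b05298484378b928cac16c44b02079bc0000001902f40542480000000000000000000000000000006c44b06c44b06c44b06c44b06c44b06c44b06c44b05602994379d94bcaf46c44b016201f291be30000000c319a00000004f8cb0000000000006c44b06c44b06c44b06c44b06c44b06c44b06c44b06c44b06c44b06c44b05624916c44b044e1d426dbb31d056a0000000000000000000000006c44b06c44b06c44b06c44b06c44b0699a4a6c44b05aeb3b4da26d5341bc4328cd2762dc6c44b01cb7501734ea0000000c8e020000000000006c44b06c44b06c44b06c44b06c44b06c44b06c44b06c44b06c44b06702686c44b04568fd4f8d606c44b028f85e00000017a1090000000000006c44b06c44b06c44b06c44b06c44b06c44b06c44b06c44b06c44b06c44b06013164f3f46550fc6434c526c44b01c3e7d279fa30000001651ad6c44b06c44b06c44b06c44b06c44b06c44b06c44b06c44b06c44b06c44b06c44b06c44b06c44b06c44b05006336c44b04470eb0000002901366c44b06c44b06c44b06c44b06c44b06c44b06c44b06c44b06c44b06c44b0674be56c44b05fb6ae54a3a744a50d27d3c56c44b00000001f01a36c44b06c44b06c44b06c44b06c44b06c44b06c44b06c44b06c44b06c44b06c44b06c44b06c44b06c44b06c44b06c44b06c44b06c44b052026c6c44b06c44b06c44b06c44b06c44b06c44b06c44b06c44b06c44b06c44b06c44b06c44b06c44b06c44b055f30343437a4d430d1a42446c44b0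

theorem mem5 : (2694115 : ℝ) / 7095472 ∈ Bset 5 := by
  have := mem_Bset_all (n := 19) (pm := pm5) 24 D5 5 7095472 2694115 8 6 [0, 1, 1, 2, 3, 2, 0, 1, 2, 1, 3, 4, 2, 1, 0, 3, 1, 2, 4] [6, 8, 9, 10, 11] (by norm_num)
    (by norm_num) (by norm_num) (by decide +kernel) (by decide +kernel) (by decide +kernel)
    (by decide +kernel) (by decide +kernel)
  exact_mod_cast this

end Pool.Agent.H88.BalC
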